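import Mathlib

/-!
# Every 2-sunflowerable infinite structure is sunflowerable

Idea. Let `M` be 2-sunflowerable. The sets `{x, f x}` show that every function `f` on `M` is constant
or injective on a substructure isomorphic to `M`. So for sets `{t 1 x, ..., t n x}` we may assume
that all functions `t i` are constant or injective. If `t i` and `t j` are injective, let `φ x` be
the `y` with `t i x = t j y`; then `φ x ≠ x`. The sets `{x, φ x}` are different for different `x` in
some copy of `M`, as they are not all the same, and by 2-sunflowerability `φ x` is not in the copy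
for any `x` in a smaller copy. Then the sets form a sunflower.
-/

set_option autoImplicit false

namespace Pool.Agent.Results.MP_615e1a_lc.TwoSunflowerable

open FirstOrder Set

universe u v w

/-- A set `S` of finite sets is a sunflower if there is a set `r` with `p ∩ q = r` for all distinct
`p, q ∈ S`. -/
def IsSunflower {V : Type u} (S : Set (Finset V)) : Prop :=
  ∃ r : Set V, ∀ p ∈ S, ∀ q ∈ S, p ≠ q → (p : Set V) ∩ (q : Set V) = r

/-- The `L`-structure `M` is `n`-sunflowerable: if `Y` is an `L`-structure isomorphic to `M` whose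
underlying set consists of `n`-element sets, then some substructure `Z` of `Y` is isomorphic to `Y`
and has an underlying set which is a sunflower. -/
def IsNSunflowerable (L : FirstOrder.Language.{v, w}) (M : Type u) [L.Structure M] (n : ℕ) : Prop :=
  ∀ (V : Type u) (Y : Set (Finset V)) [L.Structure Y], (∀ p ∈ Y, p.card = n) →
    Nonempty (M ≃[L] Y) →
      ∃ Z : L.Substructure Y, Nonempty (Z ≃[L] Y) ∧ IsSunflower (Subtype.val '' (Z : Set Y))

/-- The `L`-structure `M` is sunflowerable if it is `n`-sunflowerable for every `n`. -/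
def IsSunflowerable (L : FirstOrder.Language.{v, w}) (M : Type u) [L.Structure M] : Prop :=
  ∀ n : ℕ, IsNSunflowerable L M n

variable {L : FirstOrder.Language.{v, w}} {M : Type u} [L.Structure M]

/-- the same property in terms of embeddings -/
def Sun (L : FirstOrder.Language.{v, w}) (M : Type u) [L.Structure M] (n : ℕ) : Prop :=
  ∀ (V : Type u) (t : M → Finset V), Function.Injective t → (∀ x, (t x).card = n) →
    ∃ (g : M ↪[L] M) (r : Set V), ∀ x y, x ≠ y → (t (g x) : Set V) ∩ (t (g y) : Set V) = r

theorem sun_of_isNSunflowerable {n : ℕ} (h : IsNSunflowerable L M n) : Sun L M n := by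
  intro V t ht hc
  let e : M ≃ Set.range t := Equiv.ofInjective t ht
  let : L.Structure (Set.range t) := e.inducedStructure
  let e' : M ≃[L] Set.range t := e.inducedStructureEquiv
  obtain ⟨Z, ⟨φ⟩, r, hr⟩ := h V (Set.range t) (by rintro _ ⟨x, rfl⟩; exact hc x) ⟨e'⟩
  let g : M ↪[L] M :=
    e'.symm.toEmbedding.comp (Z.subtype.comp (φ.symm.toEmbedding.comp e'.toEmbedding))
  refine ⟨g, r, fun x y hxy => ?_⟩
  have key : ∀ x, t (g x) = ((φ.symm (e' x) : Z) : Set.range t).1 := by
    intro x
    have h1 : e' (g x) = ((φ.symm (e' x) : Z) : Set.range t) := by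
      show e' (e'.symm _) = _
      exact e'.apply_symm_apply _
    have h2 : (e' (g x)).1 = t (g x) := rfl
    rw [← h2, h1]
  have hne : t (g x) ≠ t (g y) := fun h => hxy (g.injective (ht h))
  refine hr _ ?_ _ ?_ hne
  · rw [key]
    exact ⟨_, (φ.symm (e' x)).2, rfl⟩
  · rw [key]
    exact ⟨_, (φ.symm (e' y)).2, rfl⟩

theorem isNSunflowerable_of_sun {n : ℕ} (h : Sun L M n) : IsNSunflowerable L M n := by
  intro V Y _ hY ⟨e⟩
  obtain ⟨g, r, hr⟩ := h V (fun x => (e x).1) (fun x y hxy => e.injective (Subtype.ext hxy))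
    (fun x => hY _ (e x).2)
  let k : M ↪[L] Y := e.toEmbedding.comp g
  refine ⟨k.toHom.range, ⟨?_⟩, r, ?_⟩
  · exact e.comp k.equivRange.symm
  · rintro _ ⟨_, ⟨x, rfl⟩, rfl⟩ _ ⟨_, ⟨y, rfl⟩, rfl⟩ hne
    refine hr x y ?_
    rintro rfl
    exact hne rfl

/-- every function is constant or injective on a copy -/
theorem const_or_inj [Infinite M] (h : Sun L M 2) {W : Type u} (f : M → W) :
    ∃ g : M ↪[L] M, (∀ x y, f (g x) = f (g y)) ∨ Function.Injective (fun x => f (g x)) := by
  classical
  obtain ⟨g, r, hr⟩ := h (M ⊕ W) (fun x => {Sum.inl x, Sum.inr (f x)}) (by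
      intro x y hxy
      have h1 : (Sum.inl x : M ⊕ W) ∈ ({Sum.inl y, Sum.inr (f y)} : Finset (M ⊕ W)) := by
        have h2 : ({Sum.inl x, Sum.inr (f x)} : Finset (M ⊕ W)) = {Sum.inl y, Sum.inr (f y)} := hxy
        rw [← h2]
        simp
      simpa using h1) (by
      intro x
      exact Finset.card_pair (by simp))
  refine ⟨g, ?_⟩
  by_cases hinj : Function.Injective (fun x => f (g x))
  · exact Or.inr hinj
  · left
    rw [Function.Injective] at hinj
    push Not at hinj
    obtain ⟨x, y, hxy, hne⟩ := hinj
    have hmem : (Sum.inr (f (g x)) : M ⊕ W) ∈ r := by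
      rw [← hr x y hne]
      have hxy' : f (g x) = f (g y) := hxy
      simp [hxy']
    have hall : ∀ z, f (g x) = f (g z) := by
      intro z
      obtain ⟨z', hz'⟩ : ∃ z' : M, z' ≠ z := exists_ne z
      have h1 : (Sum.inr (f (g x)) : M ⊕ W) ∈
          ((({Sum.inl (g z), Sum.inr (f (g z))} : Finset (M ⊕ W)) : Set (M ⊕ W)) ∩
            (({Sum.inl (g z'), Sum.inr (f (g z'))} : Finset (M ⊕ W)) : Set (M ⊕ W))) := by
        rw [hr z z' hz'.symm]
        exact hmem
      simpa using h1.1
    intro a b
    rw [← hall a, ← hall b]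

/-- the functions `a` and `b` can be given disjoint ranges -/
theorem separate [Infinite M] (h : Sun L M 2) {V : Type u} (a b : M → V)
    (ha : Function.Injective a) (hb : Function.Injective b) (hab : ∀ x, a x ≠ b x) :
    ∃ k : M ↪[L] M, ∀ x y, a (k x) ≠ b (k y) := by
  classical
  let φ : M → M ⊕ M := fun x => if hx : ∃ y, a x = b y then Sum.inl hx.choose else Sum.inr x
  have hφ : ∀ x y, a x = b y → φ x = Sum.inl y := by
    intro x y hxy
    have hx : ∃ y, a x = b y := ⟨y, hxy⟩
    have h1 : φ x = Sum.inl hx.choose := dif_pos hx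
    rw [h1]
    exact congrArg _ (hb (hx.choose_spec.symm.trans hxy))
  have hφ' : ∀ x y, φ x = Sum.inl y → a x = b y := by
    intro x y hxy
    by_cases hx : ∃ y, a x = b y
    · have h1 : φ x = Sum.inl hx.choose := dif_pos hx
      rw [h1] at hxy
      rw [← Sum.inl.inj hxy]
      exact hx.choose_spec
    · have h1 : φ x = Sum.inr x := dif_neg hx
      rw [h1] at hxy
      simp at hxy
  have hφx : ∀ x, φ x ≠ Sum.inl x := fun x hx => hab x (hφ' x x hx)
  let e : M → Finset (M ⊕ M) := fun x => {Sum.inl x, φ x}
  have he : ∀ x, (e x).card = 2 := fun x => Finset.card_pair (hφx x).symm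
  have hmem : ∀ x, (Sum.inl x : M ⊕ M) ∈ e x := fun x => by simp [e]
  obtain ⟨g, hg⟩ := const_or_inj (W := Finset (M ⊕ M)) h e
  have hinj : Function.Injective (fun x => e (g x)) := by
    rcases hg with hg | hg
    · exfalso
      obtain ⟨x₀⟩ : Nonempty M := inferInstance
      have h1 : Set.Finite (Set.range (fun x : M => (Sum.inl (g x) : M ⊕ M))) := by
        refine (e (g x₀)).finite_toSet.subset ?_
        rintro _ ⟨x, rfl⟩
        have := hmem (g x)
        rw [hg x x₀] at this
        exact this
      refine Set.infinite_range_of_injective ?_ h1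
      intro x y hxy
      exact g.injective (Sum.inl.inj hxy)
    · exact hg
  obtain ⟨g', r, hr⟩ := h (M ⊕ M) (fun x => e (g x)) hinj (fun x => he _)
  refine ⟨g.comp g', fun x y hxy => ?_⟩
  have hxy' : a (g (g' x)) = b (g (g' y)) := hxy
  have hne : x ≠ y := by
    rintro rfl
    exact hab _ hxy'
  have h1 : (Sum.inl (g (g' y)) : M ⊕ M) ∈ r := by
    rw [← hr x y hne]
    refine ⟨?_, ?_⟩
    · have : φ (g (g' x)) = Sum.inl (g (g' y)) := hφ _ _ hxy'
      rw [← this]
      simp [e]
    · exact hmem _
  have h2 : ∀ z, z ≠ y → a (g (g' z)) = b (g (g' y)) := by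
    intro z hz
    rw [← hr z y hz] at h1
    have h3 : (Sum.inl (g (g' y)) : M ⊕ M) ∈ e (g (g' z)) := h1.1
    rcases Finset.mem_insert.1 h3 with h4 | h4
    · exact absurd (g'.injective (g.injective (Sum.inl.inj h4))).symm hz
    · exact hφ' _ _ (Finset.mem_singleton.1 h4).symm
  obtain ⟨z, hz⟩ : ∃ z : M, z ∉ ({x, y} : Finset M) := Infinite.exists_notMem_finset _
  have hz1 : z ≠ x := fun h => hz (by simp [h])
  have hz2 : z ≠ y := fun h => hz (by simp [h])
  exact hz1 (g'.injective (g.injective (ha ((h2 z hz2).trans (h2 x hne).symm))))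

theorem sun_of_two [Infinite M] (h : Sun L M 2) (n : ℕ) : Sun L M n := by
  classical
  intro V t ht hc
  -- enumerate the sets
  let T : M → Fin n → V := fun x i => ((t x).equivFinOfCardEq (hc x)).symm i
  have hT : ∀ x, Function.Injective (T x) := by
    intro x i j hij
    exact ((t x).equivFinOfCardEq (hc x)).symm.injective (Subtype.ext hij)
  have hT' : ∀ x v, v ∈ t x ↔ ∃ i, T x i = v := by
    intro x v
    constructor
    · intro hv
      refine ⟨(t x).equivFinOfCardEq (hc x) ⟨v, hv⟩, ?_⟩
      simp [T]
    · rintro ⟨i, rfl⟩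
      exact (((t x).equivFinOfCardEq (hc x)).symm i).2
  -- all coordinates constant or injective
  have h1 : ∀ I : Finset (Fin n), ∃ g : M ↪[L] M, ∀ i ∈ I,
      (∀ x y, T (g x) i = T (g y) i) ∨ Function.Injective (fun x => T (g x) i) := by
    intro I
    induction I using Finset.induction_on with
    | empty => exact ⟨FirstOrder.Language.Embedding.refl L M, by simp⟩
    | insert i I hi ih =>
      obtain ⟨g, hg⟩ := ih
      obtain ⟨g', hg'⟩ := const_or_inj h (fun x => T (g x) i)
      refine ⟨g.comp g', fun j hj => ?_⟩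
      rcases Finset.mem_insert.1 hj with rfl | hj
      · exact hg'
      · rcases hg j hj with h2 | h2
        · exact Or.inl fun x y => h2 _ _
        · exact Or.inr fun x y hxy => g'.injective (h2 hxy)
  obtain ⟨g, hg⟩ := h1 Finset.univ
  -- different coordinates have disjoint ranges
  have h2 : ∀ I : Finset (Fin n × Fin n), ∃ k : M ↪[L] M, ∀ p ∈ I, p.1 ≠ p.2 →
      ∀ x y, T (g (k x)) p.1 ≠ T (g (k y)) p.2 := by
    intro I
    induction I using Finset.induction_on with
    | empty => exact ⟨FirstOrder.Language.Embedding.refl L M, by simp⟩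
    | insert p I hp ih =>
      obtain ⟨k, hk⟩ := ih
      by_cases hpp : p.1 = p.2
      · refine ⟨k, fun q hq hne => ?_⟩
        rcases Finset.mem_insert.1 hq with rfl | hq
        · exact absurd hpp hne
        · exact hk q hq hne
      · obtain ⟨k', hk'⟩ : ∃ k' : M ↪[L] M, ∀ x y, T (g (k (k' x))) p.1 ≠ T (g (k (k' y))) p.2 := by
          rcases hg p.1 (Finset.mem_univ _) with h3 | h3
          · refine ⟨FirstOrder.Language.Embedding.refl L M, fun x y hxy => hpp ?_⟩
            have h4 : T (g (k x)) p.1 = T (g (k y)) p.2 := hxy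
            rw [h3 (k x) (k y)] at h4
            exact hT _ h4
          · rcases hg p.2 (Finset.mem_univ _) with h4 | h4
            · refine ⟨FirstOrder.Language.Embedding.refl L M, fun x y hxy => hpp ?_⟩
              have h5 : T (g (k x)) p.1 = T (g (k y)) p.2 := hxy
              rw [h4 (k y) (k x)] at h5
              exact hT _ h5
            · exact separate h (fun x => T (g (k x)) p.1) (fun x => T (g (k x)) p.2)
                (fun x y hxy => k.injective (h3 hxy)) (fun x y hxy => k.injective (h4 hxy))
                (fun x hx => hpp (hT _ hx))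
        refine ⟨k.comp k', fun q hq hne x y => ?_⟩
        rcases Finset.mem_insert.1 hq with rfl | hq
        · exact hk' x y
        · exact hk q hq hne _ _
  obtain ⟨k, hk⟩ := h2 Finset.univ
  obtain ⟨x₀⟩ : Nonempty M := inferInstance
  refine ⟨g.comp k, {v | ∃ i, (∀ x y, T (g x) i = T (g y) i) ∧ v = T (g x₀) i}, fun x y hxy => ?_⟩
  ext v
  simp only [Set.mem_inter_iff, Finset.mem_coe, Set.mem_ofPred_eq]
  constructor
  · rintro ⟨hx, hy⟩
    obtain ⟨i, hi⟩ := (hT' _ _).1 hx
    obtain ⟨j, hj⟩ := (hT' _ _).1 hy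
    have hi' : T (g (k x)) i = v := hi
    have hj' : T (g (k y)) j = v := hj
    have hij : i = j := by
      by_contra hne
      exact hk (i, j) (Finset.mem_univ _) hne x y (hi'.trans hj'.symm)
    subst hij
    rcases hg i (Finset.mem_univ _) with h3 | h3
    · exact ⟨i, h3, by rw [← hi']; exact h3 _ _⟩
    · exact absurd (k.injective (h3 (hi'.trans hj'.symm))) hxy
  · rintro ⟨i, hi, rfl⟩
    exact ⟨(hT' _ _).2 ⟨i, hi _ _⟩, (hT' _ _).2 ⟨i, hi _ _⟩⟩

/-- Every `2`-sunflowerable infinite structure, in any language, is sunflowerable. -/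
theorem result (L : FirstOrder.Language.{v, w}) (M : Type u) [L.Structure M] [Infinite M] :
    IsNSunflowerable L M 2 → IsSunflowerable L M :=
  fun h n => isNSunflowerable_of_sun (sun_of_two (sun_of_isNSunflowerable h) n)

end Pool.Agent.Results.MP_615e1a_lc.TwoSunflowerable
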